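import Mathlib
import Pool.Agent.helper23.TubeDouble.Const

/-!
Tube doubling for product families: definitions, comparison of the tubes with slices, and the
integral formula for the measure.
-/

set_option autoImplicit false

open MeasureTheory Metric Set
open scoped ENNReal

namespace Pool.Agent.helper64.TD

open Pool.Agent.helper23.TubeDouble

/-- The point `(0, a₁, …, aₘ)`, where `f i = (aᵢ, cᵢ)`. -/
noncomputable def mid {m : ℕ} (f : Fin m → ℝ × ℝ) : E (m + 1) :=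
  WithLp.toLp 2 (Fin.cons 0 (fun i => (f i).1) : Fin (m + 1) → ℝ)

/-- The vector `(1, c₁, …, cₘ)`, where `f i = (aᵢ, cᵢ)`. -/
noncomputable def vel {m : ℕ} (f : Fin m → ℝ × ℝ) : E (m + 1) :=
  WithLp.toLp 2 (Fin.cons 1 (fun i => (f i).2) : Fin (m + 1) → ℝ)

open Classical in
/-- The product family: all the segments with midpoint `(0, a₁, …, aₘ)` and direction the unit
vector of `(1, c₁, …, cₘ)`, where `(aᵢ, cᵢ) ∈ F i` for every `i`. -/
noncomputable def prodFamily {m : ℕ} (F : Fin m → Finset (ℝ × ℝ)) :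
    Finset (E (m + 1) × E (m + 1)) :=
  (Fintype.piFinset F).image (fun f => (mid f, ‖vel f‖⁻¹ • vel f))

/-- The slice at time `t` of the union of the planar strips of half-width `r`. -/
def sl (F : Finset (ℝ × ℝ)) (r t : ℝ) : Set ℝ :=
  {y | ∃ p ∈ F, |y - (p.1 + p.2 * t)| < r}

/-- The set with the product slices. -/
def bx {m : ℕ} (F : Fin m → Finset (ℝ × ℝ)) (h r : ℝ) : Set (E (m + 1)) :=
  {x | |x 0| ≤ h ∧ ∀ i : Fin m, x i.succ ∈ sl (F i) r (x 0)}

/-- The union of the neighbourhoods of radius `ρ` of the segments of half-length `H`. -/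
def seg {m : ℕ} (F : Fin m → Finset (ℝ × ℝ)) (H ρ : ℝ) : Set (E (m + 1)) :=
  ⋃ p ∈ prodFamily F, {x : E (m + 1) | ∃ t ∈ Set.Icc (-H) H, dist x (p.1 + t • p.2) < ρ}

theorem tubes_eq_seg {m : ℕ} (F : Fin m → Finset (ℝ × ℝ)) (δ : ℝ) :
    tubes (m + 1) δ (prodFamily F) = seg F (1 / 2) δ := by
  unfold tubes seg
  norm_num

theorem doubles_eq_seg {m : ℕ} (F : Fin m → Finset (ℝ × ℝ)) (δ : ℝ) :
    doubles (m + 1) δ (prodFamily F) = seg F 1 (2 * δ) := rfl

theorem mem_seg {m : ℕ} (F : Fin m → Finset (ℝ × ℝ)) (H ρ : ℝ) (x : E (m + 1)) :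
    x ∈ seg F H ρ ↔ ∃ f : Fin m → ℝ × ℝ, (∀ i, f i ∈ F i) ∧ ∃ t : ℝ, |t| ≤ H ∧
      dist x (mid f + t • (‖vel f‖⁻¹ • vel f)) < ρ := by
  classical
  unfold seg prodFamily
  simp only [mem_iUnion, mem_ofPred_eq, exists_prop, Finset.mem_image, Fintype.mem_piFinset]
  constructor
  · rintro ⟨_, ⟨f, hf, rfl⟩, t, ht, hx⟩
    exact ⟨f, hf, t, abs_le.mpr ⟨ht.1, ht.2⟩, hx⟩
  · rintro ⟨f, hf, t, ht, hx⟩
    exact ⟨_, ⟨f, hf, rfl⟩, t, ⟨(abs_le.mp ht).1, (abs_le.mp ht).2⟩, hx⟩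

theorem mid_zero {m : ℕ} (f : Fin m → ℝ × ℝ) : mid f 0 = 0 := rfl
theorem mid_succ {m : ℕ} (f : Fin m → ℝ × ℝ) (i : Fin m) : mid f i.succ = (f i).1 := rfl
theorem vel_zero {m : ℕ} (f : Fin m → ℝ × ℝ) : vel f 0 = 1 := rfl
theorem vel_succ {m : ℕ} (f : Fin m → ℝ × ℝ) (i : Fin m) : vel f i.succ = (f i).2 := rfl

theorem norm_vel_sq {m : ℕ} (f : Fin m → ℝ × ℝ) : ‖vel f‖ ^ 2 = 1 + ∑ i, (f i).2 ^ 2 := by
  rw [EuclideanSpace.norm_sq_eq, Fin.sum_univ_succ]
  simp [vel_zero, vel_succ]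

theorem one_le_norm_vel {m : ℕ} (f : Fin m → ℝ × ℝ) : 1 ≤ ‖vel f‖ := by
  have h1 := norm_vel_sq f
  have h2 : 0 ≤ ∑ i, (f i).2 ^ 2 := Finset.sum_nonneg fun i _ => sq_nonneg _
  nlinarith [norm_nonneg (vel f)]

theorem norm_prodFamily {m : ℕ} (F : Fin m → Finset (ℝ × ℝ)) :
    ∀ p ∈ prodFamily F, ‖p.2‖ = 1 := by
  classical
  intro p hp
  obtain ⟨f, -, rfl⟩ := Finset.mem_image.mp hp
  have h1 := one_le_norm_vel f
  simp only
  rw [norm_smul, norm_inv, norm_norm]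
  exact inv_mul_cancel₀ (by linarith)

theorem abs_coord_le {n : ℕ} (x y : E n) (i : Fin n) : |x i - y i| ≤ dist x y := by
  rw [dist_eq_norm]
  exact PiLp.norm_apply_le (x - y) i

/-- The neighbourhoods of segments are contained in the sets with product slices. -/
theorem seg_subset_bx {m : ℕ} (F : Fin m → Finset (ℝ × ℝ)) (hF : ∀ i, ∀ p ∈ F i, |p.2| ≤ 1)
    (H ρ : ℝ) : seg F H ρ ⊆ bx F (H + ρ) (2 * ρ) := by
  intro x hx
  obtain ⟨f, hf, t, ht, hd⟩ := (mem_seg F H ρ x).mp hx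
  have hN := one_le_norm_vel f
  set u : ℝ := t * ‖vel f‖⁻¹ with hu
  have hu1 : |u| ≤ H := by
    rw [hu, abs_mul, abs_inv, abs_norm]
    have h1 : ‖vel f‖⁻¹ ≤ 1 := inv_le_one_of_one_le₀ hN
    have h2 : 0 ≤ ‖vel f‖⁻¹ := by positivity
    have h3 := abs_nonneg t
    nlinarith
  have h0 := (abs_coord_le x (mid f + t • (‖vel f‖⁻¹ • vel f)) 0).trans_lt hd
  have hcoord : ∀ j : Fin (m + 1), (mid f + t • (‖vel f‖⁻¹ • vel f)) j =
      mid f j + u * vel f j := by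
    intro j
    simp only [PiLp.add_apply, PiLp.smul_apply, smul_eq_mul, hu]
    ring
  rw [hcoord, mid_zero, vel_zero, zero_add, mul_one] at h0
  refine ⟨?_, fun i => ⟨f i, hf i, ?_⟩⟩
  · have h1 := abs_sub_abs_le_abs_sub (x 0) u
    linarith
  · have h1 := (abs_coord_le x (mid f + t • (‖vel f‖⁻¹ • vel f)) i.succ).trans_lt hd
    rw [hcoord, mid_succ, vel_succ] at h1
    have h2 : x i.succ - ((f i).1 + (f i).2 * x 0) =
        (x i.succ - ((f i).1 + u * (f i).2)) + (f i).2 * (u - x 0) := by ring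
    rw [h2]
    have h3 : |(f i).2 * (u - x 0)| ≤ 1 * |x 0 - u| := by
      rw [abs_mul, abs_sub_comm u]
      exact mul_le_mul_of_nonneg_right (hF i _ (hf i)) (abs_nonneg _)
    have h4 := abs_add_le (x i.succ - ((f i).1 + u * (f i).2)) ((f i).2 * (u - x 0))
    linarith

/-- The sets with product slices are contained in the neighbourhoods of segments. -/
theorem bx_subset_seg {m : ℕ} (F : Fin m → Finset (ℝ × ℝ)) {h H ρ : ℝ} (hρ : 0 < ρ)
    (hH : ∀ f : Fin m → ℝ × ℝ, (∀ i, f i ∈ F i) → h * ‖vel f‖ ≤ H) :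
    bx F h (ρ / Real.sqrt (m + 1)) ⊆ seg F H ρ := by
  rintro x ⟨hx0, hx⟩
  choose f hf hfx using hx
  have hN := one_le_norm_vel f
  refine (mem_seg F H ρ x).mpr ⟨f, hf, x 0 * ‖vel f‖, ?_, ?_⟩
  · rw [abs_mul, abs_norm]
    exact (mul_le_mul_of_nonneg_right hx0 (norm_nonneg _)).trans (hH f hf)
  · have hcoord : ∀ j : Fin (m + 1), (mid f + (x 0 * ‖vel f‖) • (‖vel f‖⁻¹ • vel f)) j =
        mid f j + x 0 * vel f j := by
      intro j
      simp only [PiLp.add_apply, PiLp.smul_apply, smul_eq_mul]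
      field_simp
    rw [EuclideanSpace.dist_eq, Real.sqrt_lt' hρ, Fin.sum_univ_succ]
    simp only [hcoord, mid_zero, vel_zero, mid_succ, vel_succ, zero_add, mul_one, dist_self]
    have hm : (0 : ℝ) < m + 1 := by positivity
    have h1 : ∀ i : Fin m, dist (x i.succ) ((f i).1 + x 0 * (f i).2) ^ 2 ≤ ρ ^ 2 / (m + 1) := by
      intro i
      rw [Real.dist_eq, mul_comm (x 0)]
      have h2 := (hfx i).le
      have h3 : (ρ / Real.sqrt (m + 1)) ^ 2 = ρ ^ 2 / (m + 1) := by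
        rw [div_pow, Real.sq_sqrt hm.le]
      rw [← h3]
      exact pow_le_pow_left₀ (abs_nonneg _) h2 2
    have h4 : ∑ i : Fin m, dist (x i.succ) ((f i).1 + x 0 * (f i).2) ^ 2 ≤
        m * (ρ ^ 2 / (m + 1)) := by
      refine (Finset.sum_le_sum fun i _ => h1 i).trans ?_
      simp
    have h5 : (m : ℝ) * (ρ ^ 2 / (m + 1)) < ρ ^ 2 := by
      rw [mul_div_assoc', div_lt_iff₀ hm]
      nlinarith [sq_pos_of_pos hρ]
    simp only [ne_eq, OfNat.ofNat_ne_zero, not_false_eq_true, zero_pow]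
    linarith

theorem isOpen_sl_prod (F : Finset (ℝ × ℝ)) (r : ℝ) :
    IsOpen {z : ℝ × ℝ | z.2 ∈ sl F r z.1} := by
  have h1 : {z : ℝ × ℝ | z.2 ∈ sl F r z.1} =
      ⋃ p ∈ F, {z : ℝ × ℝ | |z.2 - (p.1 + p.2 * z.1)| < r} := by
    ext z
    simp [sl]
  rw [h1]
  refine isOpen_biUnion fun p _ => ?_
  exact isOpen_lt (by fun_prop) continuous_const

theorem measurableSet_sl (F : Finset (ℝ × ℝ)) (r t : ℝ) : MeasurableSet (sl F r t) := by
  have h1 : Measurable (fun y : ℝ => ((t, y) : ℝ × ℝ)) := by fun_prop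
  exact h1 (isOpen_sl_prod F r).measurableSet

theorem measurable_volume_sl (F : Finset (ℝ × ℝ)) (r : ℝ) :
    Measurable (fun t => volume (sl F r t)) :=
  measurable_measure_prodMk_left (isOpen_sl_prod F r).measurableSet

/-- The measure of the set with product slices. -/
theorem volume_bx {m : ℕ} (F : Fin m → Finset (ℝ × ℝ)) (h r : ℝ) :
    volume (bx F h r) = ∫⁻ t in Icc (-h) h, ∏ i, volume (sl (F i) r t) := by
  set A : Set (Fin (m + 1) → ℝ) := {x | |x 0| ≤ h ∧ ∀ i : Fin m, x i.succ ∈ sl (F i) r (x 0)}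
    with hA
  set B : Set (ℝ × (Fin m → ℝ)) := {z | |z.1| ≤ h ∧ ∀ i : Fin m, z.2 i ∈ sl (F i) r z.1}
    with hB
  have hBm : MeasurableSet B := by
    have e : B = {z : ℝ × (Fin m → ℝ) | |z.1| ≤ h} ∩
        ⋂ i : Fin m, {z : ℝ × (Fin m → ℝ) | z.2 i ∈ sl (F i) r z.1} := by
      ext z
      simp [hB]
    rw [e]
    refine MeasurableSet.inter ?_ (MeasurableSet.iInter fun i => ?_)
    · exact (isClosed_le (by fun_prop) continuous_const).measurableSet
    · have h1 : Measurable (fun z : ℝ × (Fin m → ℝ) => ((z.1, z.2 i) : ℝ × ℝ)) := by fun_prop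
      exact h1 (isOpen_sl_prod (F i) r).measurableSet
  have e1 : bx F h r = (WithLp.ofLp : E (m + 1) → (Fin (m + 1) → ℝ)) ⁻¹' A := rfl
  have e2 : A = (MeasurableEquiv.piFinSuccAbove (fun _ : Fin (m + 1) => ℝ) 0) ⁻¹' B := by
    ext x
    simp [hA, hB, MeasurableEquiv.piFinSuccAbove, Fin.insertNthEquiv, Fin.removeNth, Fin.tail]
  have hAm : MeasurableSet A := by
    rw [e2]
    exact (MeasurableEquiv.piFinSuccAbove (fun _ : Fin (m + 1) => ℝ) 0).measurable hBm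
  rw [e1, (PiLp.volume_preserving_ofLp (Fin (m + 1))).measure_preimage hAm.nullMeasurableSet, e2,
    (volume_preserving_piFinSuccAbove (fun _ : Fin (m + 1) => ℝ) 0).measure_preimage
      hBm.nullMeasurableSet, Measure.volume_eq_prod, Measure.prod_apply hBm,
    ← lintegral_indicator measurableSet_Icc]
  refine lintegral_congr fun t => ?_
  by_cases ht : |t| ≤ h
  · have h1 : Prod.mk t ⁻¹' B = Set.pi univ (fun i => sl (F i) r t) := by
      ext y
      simp [hB, ht]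
    have h2 : t ∈ Icc (-h) h := ⟨(abs_le.mp ht).1, (abs_le.mp ht).2⟩
    rw [h1, volume_pi_pi, Set.indicator_of_mem h2]
  · have h1 : Prod.mk t ⁻¹' B = ∅ := by
      ext y
      simp [hB, ht]
    have h2 : t ∉ Icc (-h) h := fun hc => ht (abs_le.mpr ⟨hc.1, hc.2⟩)
    rw [h1, measure_empty, Set.indicator_of_notMem h2]

end Pool.Agent.helper64.TD
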