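import Mathlib
import Pool.Agent.helper64.TD.Geom

/-!
Tube doubling for product families: digit families, which show that the power of the logarithm
cannot be improved.
-/

set_option autoImplicit false

open MeasureTheory Metric Set
open scoped ENNReal

namespace Pool.Agent.helper64.TD

open Pool.Agent.helper23.TubeDouble

/-- The turning times. -/
noncomputable def tau (k i : ℕ) : ℝ := -5 / 8 + 5 / 4 * ((i + 1) / k)

/-- The weight of the `i`-th digit. -/
noncomputable def wt (s : ℝ) (i : ℕ) : ℝ := s * (1 / 2) ^ (i + 1)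

open Classical in
/-- The digit family: the sets `d` of natural numbers below `k` are the strings of `k` binary
digits. -/
noncomputable def fam (s : ℝ) (k : ℕ) : Finset (ℝ × ℝ) :=
  (Finset.range k).powerset.image
    (fun d => (-∑ i ∈ d, wt s i * tau k i, ∑ i ∈ d, wt s i))

/-- The position at time `t`. -/
noncomputable def ps (s : ℝ) (k : ℕ) (t : ℝ) (d : Finset ℕ) : ℝ :=
  ∑ i ∈ d, wt s i * (t - tau k i)

theorem mem_sl_fam {s : ℝ} {k : ℕ} {r t y : ℝ} :
    y ∈ sl (fam s k) r t ↔ ∃ d ⊆ Finset.range k, |y - ps s k t d| < r := by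
  classical
  have h1 : ∀ d : Finset ℕ, -∑ i ∈ d, wt s i * tau k i + (∑ i ∈ d, wt s i) * t = ps s k t d := by
    intro d
    unfold ps
    rw [Finset.sum_mul, ← Finset.sum_neg_distrib, ← Finset.sum_add_distrib]
    refine Finset.sum_congr rfl fun i _ => ?_
    ring
  unfold sl fam
  simp only [mem_ofPred_eq, Finset.mem_image, Finset.mem_powerset]
  constructor
  · rintro ⟨_, ⟨d, hd, rfl⟩, hy⟩
    refine ⟨d, hd, ?_⟩
    rw [← h1]
    exact hy
  · rintro ⟨d, hd, hy⟩
    refine ⟨_, ⟨d, hd, rfl⟩, ?_⟩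
    rw [← h1] at hy
    exact hy

theorem wt_nonneg {s : ℝ} (hs : 0 ≤ s) (i : ℕ) : 0 ≤ wt s i := by
  unfold wt
  positivity

theorem sum_wt (s : ℝ) (k : ℕ) : ∑ i ∈ Finset.range k, wt s i = s * (1 - (1 / 2) ^ k) := by
  induction k with
  | zero => simp
  | succ k ih =>
    rw [Finset.sum_range_succ, ih]
    unfold wt
    ring

theorem slope_fam {s : ℝ} (hs : 0 ≤ s) {k : ℕ} : ∀ p ∈ fam s k, |p.2| ≤ s := by
  classical
  intro p hp
  unfold fam at hp
  rw [Finset.mem_image] at hp
  obtain ⟨d, hd, rfl⟩ := hp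
  rw [Finset.mem_powerset] at hd
  simp only
  rw [abs_of_nonneg (Finset.sum_nonneg fun i _ => wt_nonneg hs i)]
  have h1 : ∑ i ∈ d, wt s i ≤ ∑ i ∈ Finset.range k, wt s i :=
    Finset.sum_le_sum_of_subset_of_nonneg hd fun i _ _ => wt_nonneg hs i
  rw [sum_wt] at h1
  have h2 : (0 : ℝ) ≤ (1 / 2) ^ k := by positivity
  nlinarith

theorem fam_nonempty (s : ℝ) (k : ℕ) : (fam s k).Nonempty := by
  classical
  unfold fam
  exact Finset.Nonempty.image ⟨∅, by simp⟩ _

theorem sum_tail (n : ℕ) :
    ∑ j ∈ Finset.range n, ((j : ℝ) + 1) * (1 / 2) ^ (j + 1) = 2 - (n + 2) * (1 / 2) ^ n := by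
  induction n with
  | zero => simp
  | succ n ih =>
    rw [Finset.sum_range_succ, ih]
    push_cast
    ring

/-- The inner slices are small. -/
theorem volume_inner_le {s : ℝ} (hs0 : 0 ≤ s) (hs1 : s ≤ 1) {k : ℕ} (hk : 1 ≤ k) {δ : ℝ}
    (hδ : 0 < δ) (hδk : δ * 2 ^ k ≤ 1) {t : ℝ} (ht : |t| ≤ 9 / 16) :
    volume (sl (fam s k) (2 * δ) t) ≤ ENNReal.ofReal (85 / k) := by
  classical
  have hk0 : (0 : ℝ) < k := by exact_mod_cast hk
  obtain ⟨ht1, ht2⟩ := abs_le.mp ht
  set x : ℝ := (t + 5 / 8) * (4 / 5) * k with hx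
  have hx0 : 0 ≤ x := by
    have : 0 ≤ t + 5 / 8 := by linarith
    positivity
  set i₀ : ℕ := ⌊x⌋₊ with hi₀
  have hi1 : (i₀ : ℝ) ≤ x := Nat.floor_le hx0
  have hi2 : x < i₀ + 1 := Nat.lt_floor_add_one x
  have hi3 : x ≤ 19 / 20 * k := by
    rw [hx]
    exact mul_le_mul_of_nonneg_right (by linarith) hk0.le
  have hi4 : i₀ ≤ k := by
    have : (i₀ : ℝ) ≤ k := by linarith
    exact_mod_cast this
  have htx : t = -5 / 8 + 5 / 4 * (x / k) := by
    rw [hx]
    field_simp
    ring
  obtain ⟨l, hl⟩ := Nat.exists_eq_add_of_le hi4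
  have hlk : (k : ℝ) = i₀ + l := by exact_mod_cast hl
  have hl1 : (k : ℝ) / 20 ≤ l := by linarith
  set T : ℝ := 5 / 2 * (1 / 2) ^ i₀ / k with hT
  -- the tails
  have htail : ∀ d ⊆ Finset.range k, |ps s k t d - ps s k t (d ∩ Finset.range i₀)| ≤ T := by
    intro d hd
    have h1 : ps s k t d - ps s k t (d ∩ Finset.range i₀) =
        ∑ i ∈ d \ Finset.range i₀, wt s i * (t - tau k i) := by
      unfold ps
      rw [← Finset.sum_inter_add_sum_sdiff d (Finset.range i₀)]
      ring
    rw [h1]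
    refine (Finset.abs_sum_le_sum_abs _ _).trans ?_
    have h2 : ∀ i ∈ Finset.Ico i₀ k, |wt s i * (t - tau k i)| ≤
        (1 / 2) ^ (i + 1) * (5 / 4 * (((i : ℝ) + 1 - i₀) / k)) := by
      intro i hi
      rw [Finset.mem_Ico] at hi
      have hi' : (i₀ : ℝ) ≤ i := by exact_mod_cast hi.1
      have h3 : t - tau k i = 5 / 4 * ((x - (i + 1)) / k) := by
        rw [htx]
        unfold tau
        field_simp
        ring
      have h3' : |t - tau k i| = 5 / 4 * (((i + 1) - x) / k) := by
        have h30 : t - tau k i = -(5 / 4 * (((i + 1) - x) / k)) := by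
          rw [h3]
          ring
        have h31 : 0 ≤ 5 / 4 * (((i + 1) - x) / k) := by
          have : 0 ≤ ((i : ℝ) + 1) - x := by linarith
          positivity
        rw [h30, abs_neg, abs_of_nonneg h31]
      rw [abs_mul, abs_of_nonneg (wt_nonneg hs0 i), h3']
      have h4 : wt s i ≤ (1 / 2) ^ (i + 1) := by
        unfold wt
        exact mul_le_of_le_one_left (by positivity) hs1
      have h40 : 0 ≤ ((i : ℝ) + 1) - x := by linarith
      refine mul_le_mul h4 ?_ (by positivity) (by positivity)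
      gcongr
    have h5 : ∑ i ∈ d \ Finset.range i₀, |wt s i * (t - tau k i)| ≤
        ∑ i ∈ Finset.Ico i₀ k, |wt s i * (t - tau k i)| := by
      refine Finset.sum_le_sum_of_subset_of_nonneg ?_ fun i _ _ => abs_nonneg _
      intro i hi
      rw [Finset.mem_sdiff, Finset.mem_range, not_lt] at hi
      exact Finset.mem_Ico.mpr ⟨hi.2, Finset.mem_range.mp (hd hi.1)⟩
    refine (h5.trans (Finset.sum_le_sum h2)).trans ?_
    rw [Finset.sum_Ico_eq_sum_range]
    have h6 : ∀ j ∈ Finset.range (k - i₀),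
        (1 / 2 : ℝ) ^ (i₀ + j + 1) * (5 / 4 * ((((i₀ + j : ℕ) : ℝ) + 1 - i₀) / k)) =
        5 / 4 * (1 / 2) ^ i₀ / k * (((j : ℝ) + 1) * (1 / 2) ^ (j + 1)) := by
      intro j _
      push_cast
      rw [add_assoc i₀ j 1, pow_add]
      field_simp
      ring
    rw [Finset.sum_congr rfl h6, ← Finset.mul_sum, sum_tail]
    have h7 : (0 : ℝ) ≤ ((k - i₀ : ℕ) + 2) * (1 / 2) ^ (k - i₀) := by positivity
    calc 5 / 4 * (1 / 2 : ℝ) ^ i₀ / k * (2 - ((k - i₀ : ℕ) + 2) * (1 / 2) ^ (k - i₀)) ≤
          5 / 4 * (1 / 2 : ℝ) ^ i₀ / k * 2 :=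
          mul_le_mul_of_nonneg_left (by linarith) (by positivity)
      _ = T := by
          rw [hT]
          ring
  have hsub : sl (fam s k) (2 * δ) t ⊆ ⋃ d ∈ (Finset.range i₀).powerset,
      ball (ps s k t d) (T + 2 * δ) := by
    intro y hy
    obtain ⟨d, hd, hyd⟩ := mem_sl_fam.mp hy
    refine mem_iUnion₂.mpr ⟨d ∩ Finset.range i₀,
      Finset.mem_powerset.mpr Finset.inter_subset_right, ?_⟩
    rw [mem_ball, Real.dist_eq]
    have h1 : y - ps s k t (d ∩ Finset.range i₀) =
        (y - ps s k t d) + (ps s k t d - ps s k t (d ∩ Finset.range i₀)) := by ring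
    rw [h1]
    have h2 := abs_add_le (y - ps s k t d) (ps s k t d - ps s k t (d ∩ Finset.range i₀))
    have h3 := htail d hd
    linarith
  refine (measure_mono hsub).trans ((measure_biUnion_finset_le _ _).trans ?_)
  simp only [Real.volume_ball, Finset.sum_const, Finset.card_powerset, Finset.card_range,
    nsmul_eq_mul]
  push_cast
  have e2 : ((2 : ℝ≥0∞) ^ i₀) = ENNReal.ofReal (2 ^ i₀) := by
    rw [ENNReal.ofReal_pow (by norm_num)]
    simp
  rw [e2, ← ENNReal.ofReal_mul (by positivity)]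
  refine ENNReal.ofReal_le_ofReal ?_
  have hT2 : (2 : ℝ) ^ i₀ * T = 5 / 2 / k := by
    rw [hT]
    have : (2 : ℝ) ^ i₀ * (1 / 2) ^ i₀ = 1 := by
      rw [← mul_pow]
      norm_num
    calc (2 : ℝ) ^ i₀ * (5 / 2 * (1 / 2) ^ i₀ / k) =
          (2 : ℝ) ^ i₀ * (1 / 2) ^ i₀ * (5 / 2 / k) := by ring
      _ = _ := by rw [this, one_mul]
  have hδ2 : (2 : ℝ) ^ i₀ * δ ≤ 20 / k := by
    have h1 : (2 : ℝ) ^ i₀ * δ * 2 ^ l ≤ 1 := by
      have : (2 : ℝ) ^ i₀ * δ * 2 ^ l = δ * 2 ^ k := by
        rw [hl, pow_add]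
        ring
      rw [this]
      exact hδk
    have h2 : (l : ℝ) ≤ 2 ^ l := by
      have := Nat.lt_two_pow_self (n := l)
      exact_mod_cast this.le
    have h3 : (2 : ℝ) ^ i₀ * δ * l ≤ 1 :=
      (mul_le_mul_of_nonneg_left h2 (by positivity)).trans h1
    rw [le_div_iff₀ hk0]
    have h4 : (2 : ℝ) ^ i₀ * δ * (k / 20) ≤ 1 :=
      (mul_le_mul_of_nonneg_left hl1 (by positivity)).trans h3
    linarith
  calc (2 : ℝ) ^ i₀ * (2 * (T + 2 * δ)) = 2 * (2 ^ i₀ * T) + 4 * (2 ^ i₀ * δ) := by ring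
    _ ≤ 2 * (5 / 2 / k) + 4 * (20 / k) := by
        rw [hT2]
        linarith
    _ = 85 / k := by
        field_simp
        norm_num

/-- Superincreasing weights separate the subset sums. -/
theorem separated_of_gap {k : ℕ} {v : ℕ → ℝ} {c : ℝ} (hv0 : ∀ i < k, 0 ≤ v i)
    (hv : ∀ i < k, c + ∑ l ∈ Finset.Ioo i k, v l ≤ v i) {d d' : Finset ℕ}
    (hd : d ⊆ Finset.range k) (hd' : d' ⊆ Finset.range k) (hne : d ≠ d') :
    c ≤ |∑ i ∈ d, v i - ∑ i ∈ d', v i| := by
  classical
  have hS : (symmDiff d d').Nonempty := Finset.symmDiff_nonempty.mpr hne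
  set i := (symmDiff d d').min' hS with hi
  have hmem : i ∈ symmDiff d d' := Finset.min'_mem _ _
  have hmin : ∀ j < i, (j ∈ d ↔ j ∈ d') := by
    intro j hj
    by_contra hcon
    have : j ∈ symmDiff d d' := by
      rw [Finset.mem_symmDiff]
      tauto
    exact absurd (Finset.min'_le _ _ this) (not_le.mpr hj)
  have key : ∀ a b : Finset ℕ, a ⊆ Finset.range k → b ⊆ Finset.range k → i ∈ a → i ∉ b →
      (∀ j < i, (j ∈ a ↔ j ∈ b)) → c ≤ ∑ j ∈ a, v j - ∑ j ∈ b, v j := by
    intro a b ha hb hia hib hab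
    have hik : i < k := Finset.mem_range.mp (ha hia)
    have hA : a ∩ Finset.range i = b ∩ Finset.range i := by
      ext j
      rw [Finset.mem_inter, Finset.mem_inter, Finset.mem_range]
      constructor
      · rintro ⟨h1, h2⟩
        exact ⟨(hab j h2).mp h1, h2⟩
      · rintro ⟨h1, h2⟩
        exact ⟨(hab j h2).mpr h1, h2⟩
    have h1 : ∑ j ∈ a ∩ Finset.range i, v j + v i ≤ ∑ j ∈ a, v j := by
      have hni : i ∉ a ∩ Finset.range i := by simp
      rw [add_comm, ← Finset.sum_insert hni]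
      refine Finset.sum_le_sum_of_subset_of_nonneg ?_ ?_
      · intro j hj
        rw [Finset.mem_insert] at hj
        rcases hj with rfl | hj
        · exact hia
        · exact (Finset.mem_inter.mp hj).1
      · intro j hj _
        exact hv0 j (Finset.mem_range.mp (ha hj))
    have h2 : ∑ j ∈ b, v j ≤ ∑ j ∈ b ∩ Finset.range i, v j + ∑ l ∈ Finset.Ioo i k, v l := by
      rw [← Finset.sum_inter_add_sum_sdiff b (Finset.range i)]
      refine add_le_add le_rfl (Finset.sum_le_sum_of_subset_of_nonneg ?_ ?_)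
      · intro j hj
        rw [Finset.mem_sdiff, Finset.mem_range, not_lt] at hj
        refine Finset.mem_Ioo.mpr ⟨lt_of_le_of_ne hj.2 ?_, Finset.mem_range.mp (hb hj.1)⟩
        intro h
        exact hib (h ▸ hj.1)
      · intro j hj _
        exact hv0 j (Finset.mem_Ioo.mp hj).2
    have h3 := hv i hik
    rw [hA] at h1
    linarith
  rw [Finset.mem_symmDiff] at hmem
  rcases hmem with ⟨h1, h2⟩ | ⟨h1, h2⟩
  · exact (key d d' hd hd' h1 h2 hmin).trans (le_abs_self _)
  · rw [abs_sub_comm]
    exact (key d' d hd' hd h1 h2 (fun j hj => (hmin j hj).symm)).trans (le_abs_self _)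

theorem sum_Ioo_wt (s : ℝ) {i k : ℕ} (hik : i < k) :
    ∑ l ∈ Finset.Ioo i k, wt s l = s * ((1 / 2) ^ (i + 1) - (1 / 2) ^ k) := by
  have h1 : Finset.Ioo i k = Finset.Ico (i + 1) k := by
    ext j
    simp [Nat.succ_le_iff]
  rw [h1, Finset.sum_Ico_eq_sub _ (by omega : i + 1 ≤ k), sum_wt, sum_wt]
  ring

/-- The outer slices are large. -/
theorem le_volume_outer {s : ℝ} (hs0 : 0 < s) {k : ℕ} (hk : 1 ≤ k) {ρ : ℝ}
    (hρ : s / 32 * (1 / 2) ^ k ≤ ρ) {t : ℝ} (ht : 11 / 16 ≤ t) :
    ENNReal.ofReal (s / 16) ≤ volume (sl (fam s k) ρ t) := by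
  classical
  have hk0 : (0 : ℝ) < k := by exact_mod_cast hk
  have htau : ∀ i < k, 1 / 16 ≤ t - tau k i := by
    intro i hi
    have h1 : ((i : ℝ) + 1) / k ≤ 1 := by
      rw [div_le_one hk0]
      exact_mod_cast hi
    unfold tau
    linarith
  have hmono : ∀ i l : ℕ, i < l → t - tau k l ≤ t - tau k i := by
    intro i l hil
    have h1 : ((i : ℝ) + 1) / k ≤ ((l : ℝ) + 1) / k := by
      have : (i : ℝ) ≤ l := by exact_mod_cast hil.le
      gcongr
    unfold tau
    linarith
  set c : ℝ := s / 16 * (1 / 2) ^ k with hc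
  have hc0 : 0 < c := by positivity
  have hsep : ∀ d ∈ (Finset.range k).powerset, ∀ d' ∈ (Finset.range k).powerset, d ≠ d' →
      c ≤ |ps s k t d - ps s k t d'| := by
    intro d hd d' hd' hne
    unfold ps
    refine separated_of_gap (k := k) (v := fun i => wt s i * (t - tau k i)) ?_ ?_
      (Finset.mem_powerset.mp hd) (Finset.mem_powerset.mp hd') hne
    · intro i hi
      exact mul_nonneg (wt_nonneg hs0.le i) (by linarith [htau i hi])
    · intro i hi
      have h1 : ∑ l ∈ Finset.Ioo i k, wt s l * (t - tau k l) ≤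
          (∑ l ∈ Finset.Ioo i k, wt s l) * (t - tau k i) := by
        rw [Finset.sum_mul]
        refine Finset.sum_le_sum fun l hl => ?_
        exact mul_le_mul_of_nonneg_left (hmono i l (Finset.mem_Ioo.mp hl).1)
          (wt_nonneg hs0.le l)
      rw [sum_Ioo_wt s hi] at h1
      have h2 : c ≤ s * (1 / 2) ^ k * (t - tau k i) := by
        have h3 := mul_le_mul_of_nonneg_left (htau i hi)
          (by positivity : (0 : ℝ) ≤ s * (1 / 2) ^ k)
        calc c = s * (1 / 2) ^ k * (1 / 16) := by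
              rw [hc]
              ring
          _ ≤ _ := h3
      calc c + ∑ l ∈ Finset.Ioo i k, wt s l * (t - tau k l) ≤
            s * (1 / 2) ^ k * (t - tau k i) +
              s * ((1 / 2) ^ (i + 1) - (1 / 2) ^ k) * (t - tau k i) := add_le_add h2 h1
        _ = wt s i * (t - tau k i) := by
            unfold wt
            ring
  have hdis : (↑(Finset.range k).powerset : Set (Finset ℕ)).PairwiseDisjoint
      (fun d => ball (ps s k t d) (c / 2)) := by
    intro d hd d' hd' hne
    refine ball_disjoint_ball ?_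
    rw [Real.dist_eq, add_halves]
    exact hsep d (by exact_mod_cast hd) d' (by exact_mod_cast hd') hne
  have hm : volume (⋃ d ∈ (Finset.range k).powerset, ball (ps s k t d) (c / 2)) =
      ENNReal.ofReal (s / 16) := by
    rw [measure_biUnion_finset hdis (fun d _ => measurableSet_ball)]
    simp only [Real.volume_ball, Finset.sum_const, Finset.card_powerset, Finset.card_range,
      nsmul_eq_mul]
    push_cast
    have e2 : ((2 : ℝ≥0∞) ^ k) = ENNReal.ofReal (2 ^ k) := by
      rw [ENNReal.ofReal_pow (by norm_num)]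
      simp
    rw [e2, ← ENNReal.ofReal_mul (by positivity)]
    congr 1
    have : (2 : ℝ) ^ k * (1 / 2) ^ k = 1 := by
      rw [← mul_pow]
      norm_num
    calc (2 : ℝ) ^ k * (2 * (c / 2)) = s / 16 * (2 ^ k * (1 / 2) ^ k) := by
          rw [hc]
          ring
      _ = _ := by rw [this, mul_one]
  rw [← hm]
  refine measure_mono (iUnion₂_subset fun d hd => ?_)
  intro y hy
  rw [mem_ball, Real.dist_eq] at hy
  refine mem_sl_fam.mpr ⟨d, Finset.mem_powerset.mp hd, hy.trans_le ?_⟩
  refine le_trans (le_of_eq ?_) hρ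
  rw [hc]
  ring

theorem tubes_subset_doubles {m : ℕ} (F : Fin m → Finset (ℝ × ℝ)) {δ : ℝ} (hδ : 0 < δ) :
    tubes (m + 1) δ (prodFamily F) ⊆ doubles (m + 1) δ (prodFamily F) := by
  rw [tubes_eq_seg, doubles_eq_seg]
  intro x hx
  obtain ⟨f, hf, t, ht, hd⟩ := (mem_seg F _ _ x).mp hx
  exact (mem_seg F _ _ x).mpr ⟨f, hf, t, by linarith, by linarith⟩

/-- The digit families. -/
theorem exists_family {m : ℕ} (hm : 1 ≤ m) {δ : ℝ} (hδ : 0 < δ) (hδ2 : δ < 1 / 2) :
    ∃ F : Fin m → Finset (ℝ × ℝ), (∀ i, (F i).Nonempty) ∧ (∀ i, ∀ p ∈ F i, |p.2| ≤ 1) ∧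
      ENNReal.ofReal (1 / 18 * (Real.log (1 / δ) / (5440 * Real.sqrt m)) ^ m) *
        volume (tubes (m + 1) δ (prodFamily F)) ≤
      volume (doubles (m + 1) δ (prodFamily F)) := by
  have hm1 : (1 : ℝ) ≤ m := by exact_mod_cast hm
  have hm0 : (0 : ℝ) < m := by linarith
  have hq0 : 0 < Real.sqrt m := Real.sqrt_pos.mpr hm0
  have hqsq : Real.sqrt m ^ 2 = m := Real.sq_sqrt hm0.le
  have hq1 : 1 ≤ Real.sqrt m := by nlinarith
  have hl2 : 0 < Real.log 2 := Real.log_pos (by norm_num)
  have hlog2 := Real.log_two_lt_d9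
  have hlog : 0 < Real.log (1 / δ) := Real.log_pos (by rw [lt_div_iff₀ hδ]; linarith)
  rcases le_or_gt (1 / 16) δ with hbig | hsmall
  · refine ⟨fun _ => {(0, 0)}, fun _ => by simp, fun _ p hp => ?_, ?_⟩
    · rw [Finset.mem_singleton] at hp
      rw [hp]
      simp
    · have h1 : Real.log (1 / δ) ≤ 4 := by
        have h2 : 1 / δ ≤ 2 ^ 4 := by
          rw [div_le_iff₀ hδ]
          linarith
        have h3 := Real.log_le_log (by positivity) h2
        rw [Real.log_pow] at h3
        push_cast at h3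
        linarith
      have h2 : 1 / 18 * (Real.log (1 / δ) / (5440 * Real.sqrt m)) ^ m ≤ 1 := by
        have h3 : (Real.log (1 / δ) / (5440 * Real.sqrt m)) ^ m ≤ 1 := by
          refine pow_le_one₀ (by positivity) ?_
          rw [div_le_one (by positivity)]
          linarith
        linarith
      calc _ ≤ ENNReal.ofReal 1 * volume (tubes (m + 1) δ (prodFamily _)) := by
            gcongr
        _ ≤ _ := by
            rw [ENNReal.ofReal_one, one_mul]
            exact measure_mono (tubes_subset_doubles _ hδ)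
  · have hx : (1 : ℝ) ≤ 1 / δ := by
      rw [le_div_iff₀ hδ]
      linarith
    obtain ⟨k, hk1, hk2⟩ := exists_nat_pow_near hx (by norm_num : (1 : ℝ) < 2)
    have hk : 1 ≤ k := by
      by_contra h0
      have h1 : k = 0 := by omega
      rw [h1, zero_add, pow_one, div_lt_iff₀ hδ] at hk2
      linarith
    have hk0 : (0 : ℝ) < k := by exact_mod_cast hk
    have hδk : δ * 2 ^ k ≤ 1 := by
      rw [le_div_iff₀ hδ] at hk1
      linarith
    have hδk2 : (1 / 2 : ℝ) ^ k < 2 * δ := by
      rw [div_lt_iff₀ hδ, pow_succ] at hk2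
      have h1 : (2 : ℝ) ^ k * (1 / 2) ^ k = 1 := by
        rw [← mul_pow]
        norm_num
      have h2 : (0 : ℝ) < (1 / 2) ^ k := by positivity
      have h3 := mul_lt_mul_of_pos_right hk2 h2
      calc (1 / 2 : ℝ) ^ k = 1 * (1 / 2) ^ k := by ring
        _ < 2 ^ k * 2 * δ * (1 / 2) ^ k := h3
        _ = (2 ^ k * (1 / 2) ^ k) * (2 * δ) := by ring
        _ = 2 * δ := by rw [h1, one_mul]
    have hlogk : Real.log (1 / δ) ≤ 2 * k := by
      have h1 := Real.log_le_log (by positivity) hk2.le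
      rw [Real.log_pow] at h1
      push_cast at h1
      have h2 : (1 : ℝ) ≤ k := by exact_mod_cast hk
      nlinarith
    set s : ℝ := 1 / (2 * Real.sqrt m) with hs
    have hs0 : 0 < s := by positivity
    have hs1 : s ≤ 1 := by
      rw [hs, div_le_one (by positivity)]
      linarith
    have hssq : m * s ^ 2 = 1 / 4 := by
      rw [hs, div_pow, mul_pow, hqsq]
      field_simp
      norm_num
    refine ⟨fun _ => fam s k, fun _ => fam_nonempty s k,
      fun _ p hp => (slope_fam hs0.le p hp).trans hs1, ?_⟩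
    set F : Fin m → Finset (ℝ × ℝ) := fun _ => fam s k with hF
    -- the tubes
    have h1 : volume (tubes (m + 1) δ (prodFamily F)) ≤
        ENNReal.ofReal (9 / 8 * (85 / k) ^ m) := by
      have h2 : tubes (m + 1) δ (prodFamily F) ⊆ bx F (9 / 16) (2 * δ) := by
        rw [tubes_eq_seg]
        refine (seg_subset_bx F (fun _ p hp => (slope_fam hs0.le p hp).trans hs1) _ _).trans ?_
        rintro x ⟨hx0, hx⟩
        exact ⟨by linarith, hx⟩
      refine (measure_mono h2).trans ?_
      rw [volume_bx]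
      calc ∫⁻ t in Icc (-(9 / 16) : ℝ) (9 / 16), ∏ i, volume (sl (F i) (2 * δ) t)
          ≤ ∫⁻ _ in Icc (-(9 / 16) : ℝ) (9 / 16), ENNReal.ofReal (85 / k) ^ m := by
            refine setLIntegral_mono' measurableSet_Icc fun t ht => ?_
            calc ∏ i, volume (sl (F i) (2 * δ) t) ≤ ∏ _i : Fin m, ENNReal.ofReal (85 / k) :=
                  Finset.prod_le_prod' fun i _ =>
                    volume_inner_le hs0.le hs1 hk hδ hδk (abs_le.mpr ⟨ht.1, ht.2⟩)
              _ = _ := by
                  rw [Finset.prod_const, Finset.card_univ, Fintype.card_fin]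
        _ = _ := by
            rw [setLIntegral_const, Real.volume_Icc, ← ENNReal.ofReal_pow (by positivity),
              ← ENNReal.ofReal_mul (by positivity)]
            congr 1
            ring
    -- the doubles
    have h3 : ENNReal.ofReal (1 / 16 * (s / 16) ^ m) ≤
        volume (doubles (m + 1) δ (prodFamily F)) := by
      have h4 : bx F (3 / 4) (2 * δ / Real.sqrt (m + 1)) ⊆
          doubles (m + 1) δ (prodFamily F) := by
        rw [doubles_eq_seg]
        refine bx_subset_seg F (by positivity) fun f hf => ?_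
        have h5 := norm_vel_sq f
        have h6 : ∑ i, (f i).2 ^ 2 ≤ 1 / 4 := by
          calc ∑ i, (f i).2 ^ 2 ≤ ∑ _i : Fin m, s ^ 2 := by
                refine Finset.sum_le_sum fun i _ => ?_
                exact sq_le_sq' (by linarith [(abs_le.mp (slope_fam hs0.le _ (hf i))).1])
                  (abs_le.mp (slope_fam hs0.le _ (hf i))).2
            _ = 1 / 4 := by
                rw [Finset.sum_const, Finset.card_univ, Fintype.card_fin, nsmul_eq_mul, hssq]
        have h7 : ‖vel f‖ ≤ 4 / 3 := by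
          refine le_of_sq_le_sq ?_ (by norm_num)
          rw [h5]
          linarith
        linarith
      refine le_trans ?_ (measure_mono h4)
      rw [volume_bx]
      have h8 : ∀ t ∈ Icc (11 / 16 : ℝ) (3 / 4), ENNReal.ofReal (s / 16) ^ m ≤
          ∏ i, volume (sl (F i) (2 * δ / Real.sqrt (m + 1)) t) := by
        intro t ht
        calc ENNReal.ofReal (s / 16) ^ m = ∏ _i : Fin m, ENNReal.ofReal (s / 16) := by
              rw [Finset.prod_const, Finset.card_univ, Fintype.card_fin]
          _ ≤ _ := Finset.prod_le_prod' fun i _ => le_volume_outer hs0 hk ?_ ht.1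
        have h9 : Real.sqrt (m + 1) ≤ 2 * Real.sqrt m := by
          rw [Real.sqrt_le_left (by positivity), mul_pow, hqsq]
          linarith
        have h10 : 0 < Real.sqrt (m + 1) := Real.sqrt_pos.mpr (by positivity)
        calc s / 32 * (1 / 2) ^ k ≤ s / 32 * (2 * δ) :=
              mul_le_mul_of_nonneg_left hδk2.le (by positivity)
          _ ≤ s * (2 * δ) := by
              refine mul_le_mul_of_nonneg_right ?_ (by positivity)
              linarith
          _ = 2 * δ / (2 * Real.sqrt m) := by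
              rw [hs]
              ring
          _ ≤ 2 * δ / Real.sqrt (m + 1) := by gcongr
      calc ENNReal.ofReal (1 / 16 * (s / 16) ^ m) =
            ∫⁻ _ in Icc (11 / 16 : ℝ) (3 / 4), ENNReal.ofReal (s / 16) ^ m := by
            rw [setLIntegral_const, Real.volume_Icc, ← ENNReal.ofReal_pow (by positivity),
              ← ENNReal.ofReal_mul (by positivity)]
            congr 1
            ring
        _ ≤ ∫⁻ t in Icc (11 / 16 : ℝ) (3 / 4),
              ∏ i, volume (sl (F i) (2 * δ / Real.sqrt (m + 1)) t) :=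
            setLIntegral_mono' measurableSet_Icc h8
        _ ≤ ∫⁻ t in Icc (-(3 / 4) : ℝ) (3 / 4),
              ∏ i, volume (sl (F i) (2 * δ / Real.sqrt (m + 1)) t) :=
            lintegral_mono_set (Icc_subset_Icc_left (by norm_num))
    refine le_trans ?_ h3
    calc _ ≤ ENNReal.ofReal (1 / 18 * (Real.log (1 / δ) / (5440 * Real.sqrt m)) ^ m) *
            ENNReal.ofReal (9 / 8 * (85 / k) ^ m) := by gcongr
      _ = ENNReal.ofReal (1 / 16 * (Real.log (1 / δ) / (5440 * Real.sqrt m) * (85 / k)) ^ m) := by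
          rw [← ENNReal.ofReal_mul (by positivity), mul_pow]
          congr 1
          ring
      _ ≤ _ := by
          refine ENNReal.ofReal_le_ofReal ?_
          refine mul_le_mul_of_nonneg_left (pow_le_pow_left₀ (by positivity) ?_ m) (by norm_num)
          calc Real.log (1 / δ) / (5440 * Real.sqrt m) * (85 / k) ≤
                2 * k / (5440 * Real.sqrt m) * (85 / k) := by gcongr
            _ = s / 16 := by
                rw [hs]
                field_simp
                norm_num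

end Pool.Agent.helper64.TD
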