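import Mathlib
import Pool.Agent.helper64.TD.Geom

/-!
Tube doubling for product families: the planar estimate. At most times of a short interval, the
slice of the union of planar strips is comparable, up to a logarithm, with any other slice.
-/

set_option autoImplicit false

open MeasureTheory Metric Set
open scoped ENNReal

namespace Pool.Agent.helper64.TD

/-- The position at time `t` of the line with parameters `p = (a, c)`. -/
def pos (p : ℝ × ℝ) (t : ℝ) : ℝ := p.1 + p.2 * t

theorem mem_sl {F : Finset (ℝ × ℝ)} {r t y : ℝ} :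
    y ∈ sl F r t ↔ ∃ p ∈ F, |y - pos p t| < r := Iff.rfl

theorem sl_mono {P F : Finset (ℝ × ℝ)} (h : P ⊆ F) (r t : ℝ) : sl P r t ⊆ sl F r t := by
  rintro y ⟨p, hp, hy⟩
  exact ⟨p, h hp, hy⟩

/-- The family `P` is `2 R`-separated at time `t₀`. -/
def Sep (R t₀ : ℝ) (P : Finset (ℝ × ℝ)) : Prop :=
  ∀ p ∈ P, ∀ q ∈ P, p ≠ q → 2 * R ≤ |pos p t₀ - pos q t₀|

/-- A maximal separated subfamily at time `t₀`. -/
theorem exists_separated (F : Finset (ℝ × ℝ)) {R : ℝ} (hR : 0 < R) (t₀ : ℝ) :
    ∃ P ⊆ F, Sep R t₀ P ∧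
      volume (sl F R t₀) ≤ ENNReal.ofReal (6 * R) * (P.card : ℝ≥0∞) := by
  classical
  set S := F.powerset.filter (fun P => Sep R t₀ P) with hS
  have hne : S.Nonempty := ⟨∅, by simp [hS, Sep]⟩
  obtain ⟨P, hP, hmax⟩ := Finset.exists_max_image S Finset.card hne
  rw [hS, Finset.mem_filter, Finset.mem_powerset] at hP
  refine ⟨P, hP.1, hP.2, ?_⟩
  have hcov : ∀ q ∈ F, ∃ p ∈ P, |pos q t₀ - pos p t₀| < 2 * R := by
    intro q hq
    by_contra hcon
    push Not at hcon
    have hqP : q ∉ P := by
      intro h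
      have h1 := hcon q h
      simp at h1
      linarith
    have h1 : insert q P ∈ S := by
      rw [hS, Finset.mem_filter, Finset.mem_powerset]
      refine ⟨Finset.insert_subset hq hP.1, ?_⟩
      intro a ha b hb hab
      rw [Finset.mem_insert] at ha hb
      rcases ha with rfl | ha <;> rcases hb with rfl | hb
      · exact absurd rfl hab
      · exact hcon b hb
      · rw [abs_sub_comm]
        exact hcon a ha
      · exact hP.2 a ha b hb hab
    have h2 := hmax _ h1
    rw [Finset.card_insert_of_notMem hqP] at h2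
    omega
  have hsub : sl F R t₀ ⊆ ⋃ p ∈ P, ball (pos p t₀) (3 * R) := by
    rintro y ⟨q, hq, hy⟩
    obtain ⟨p, hp, hpq⟩ := hcov q hq
    refine mem_iUnion₂.mpr ⟨p, hp, ?_⟩
    rw [mem_ball, Real.dist_eq]
    have h1 : y - pos p t₀ = (y - (q.1 + q.2 * t₀)) + (pos q t₀ - pos p t₀) := by
      unfold pos
      ring
    rw [h1]
    have h2 := abs_add_le (y - (q.1 + q.2 * t₀)) (pos q t₀ - pos p t₀)
    linarith
  refine (measure_mono hsub).trans ((measure_biUnion_finset_le _ _).trans (le_of_eq ?_))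
  simp only [Real.volume_ball, Finset.sum_const, nsmul_eq_mul]
  rw [mul_comm]
  congr 2
  ring

/-- The number of pairs which are close at time `t`. -/
noncomputable def MM (P : Finset (ℝ × ℝ)) (r t : ℝ) : ℕ := by
  classical
  exact ((P ×ˢ P).filter (fun q => |pos q.1 t - pos q.2 t| < 2 * r)).card

/-- The lower bound for a slice. -/
theorem exists_cells (P : Finset (ℝ × ℝ)) {r : ℝ} (hr : 0 < r) (t : ℝ) :
    ∃ K : ℕ, P.card ^ 2 ≤ K * MM P r t ∧ ENNReal.ofReal (r * K) ≤ volume (sl P r t) := by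
  classical
  set z : ℝ × ℝ → ℤ := fun p => ⌊pos p t / (2 * r)⌋ with hz
  have h2r : 0 < 2 * r := by positivity
  refine ⟨(P.image z).card, ?_, ?_⟩
  · have h1 : P.card = ∑ k ∈ P.image z, (P.filter (fun p => z p = k)).card :=
      Finset.card_eq_sum_card_image z P
    have h2 : ∑ k ∈ P.image z, (P.filter (fun p => z p = k)).card ^ 2 ≤ MM P r t := by
      have h3 : ∑ k ∈ P.image z, (P.filter (fun p => z p = k)).card ^ 2 =
          ((P ×ˢ P).filter (fun q => z q.1 = z q.2)).card := by
        rw [Finset.card_eq_sum_card_fiberwise (f := fun q : (ℝ × ℝ) × (ℝ × ℝ) => z q.1)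
          (t := P.image z)]
        · refine Finset.sum_congr rfl fun k _ => ?_
          rw [sq, ← Finset.card_product]
          congr 1
          ext q
          simp only [Finset.mem_product, Finset.mem_filter]
          constructor
          · rintro ⟨⟨h4, h5⟩, h6, h7⟩
            exact ⟨⟨⟨h4, h6⟩, h5.trans h7.symm⟩, h5⟩
          · rintro ⟨⟨⟨h4, h6⟩, h7⟩, h5⟩
            exact ⟨⟨h4, h5⟩, h6, h7.symm.trans h5⟩
        · intro q hq
          simp only [Finset.coe_filter, Finset.mem_product, mem_ofPred_eq] at hq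
          simp only [Finset.coe_image, mem_image, Finset.mem_coe]
          exact ⟨q.1, hq.1.1, rfl⟩
      rw [h3]
      unfold MM
      refine Finset.card_le_card ?_
      intro q hq
      rw [Finset.mem_filter] at hq ⊢
      refine ⟨hq.1, ?_⟩
      have h4 : ⌊pos q.1 t / (2 * r)⌋ = ⌊pos q.2 t / (2 * r)⌋ := hq.2
      have h5 := Int.abs_sub_lt_one_of_floor_eq_floor h4
      rw [← sub_div, abs_div, abs_of_pos h2r, div_lt_one h2r] at h5
      exact h5
    calc P.card ^ 2 = (∑ k ∈ P.image z, (P.filter (fun p => z p = k)).card) ^ 2 := by rw [← h1]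
      _ ≤ (P.image z).card * ∑ k ∈ P.image z, (P.filter (fun p => z p = k)).card ^ 2 :=
          sq_sum_le_card_mul_sum_sq
      _ ≤ (P.image z).card * MM P r t := Nat.mul_le_mul_left _ h2
  · have hch : ∀ k : ℤ, k ∈ P.image z → ∃ x : ℝ, 2 * r * k ≤ x ∧ x + r ≤ 2 * r * (k + 1) ∧
        Ioo x (x + r) ⊆ sl P r t := by
      intro k hk
      obtain ⟨p, hp, hpk⟩ := Finset.mem_image.mp hk
      have h1 : (k : ℝ) ≤ pos p t / (2 * r) := by
        rw [← hpk]
        exact Int.floor_le _
      have h2 : pos p t / (2 * r) < k + 1 := by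
        rw [← hpk]
        exact Int.lt_floor_add_one _
      rw [le_div_iff₀ h2r] at h1
      rw [div_lt_iff₀ h2r] at h2
      by_cases h3 : r ≤ pos p t - 2 * r * k
      · refine ⟨pos p t - r, by linarith, by linarith, ?_⟩
        intro y hy
        refine ⟨p, hp, ?_⟩
        have h4 : |y - pos p t| < r := by
          rw [abs_lt]
          constructor <;> linarith [hy.1, hy.2]
        exact h4
      · refine ⟨pos p t, by linarith, by linarith, ?_⟩
        intro y hy
        refine ⟨p, hp, ?_⟩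
        have h4 : |y - pos p t| < r := by
          rw [abs_lt]
          constructor <;> linarith [hy.1, hy.2]
        exact h4
    choose! x hx1 hx2 hx3 using hch
    have hdis : (↑(P.image z) : Set ℤ).PairwiseDisjoint (fun k => Ioo (x k) (x k + r)) := by
      intro k hk l hl hkl
      rw [Function.onFun, Set.disjoint_left]
      intro y hy1 hy2
      have hk' : k ∈ P.image z := by exact_mod_cast hk
      have hl' : l ∈ P.image z := by exact_mod_cast hl
      have a1 := hx1 k hk'
      have a2 := hx2 k hk'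
      have b1 := hx1 l hl'
      have b2 := hx2 l hl'
      rcases lt_or_gt_of_ne hkl with h | h
      · have h5 : (k : ℝ) + 1 ≤ l := by exact_mod_cast h
        have h6 := mul_le_mul_of_nonneg_left h5 h2r.le
        linarith [hy1.2, hy2.1]
      · have h5 : (l : ℝ) + 1 ≤ k := by exact_mod_cast h
        have h6 := mul_le_mul_of_nonneg_left h5 h2r.le
        linarith [hy1.1, hy2.2]
    have hm : volume (⋃ k ∈ P.image z, Ioo (x k) (x k + r)) =
        ENNReal.ofReal (r * (P.image z).card) := by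
      rw [measure_biUnion_finset hdis (fun k _ => measurableSet_Ioo)]
      simp only [Real.volume_Ioo, add_sub_cancel_left, Finset.sum_const, nsmul_eq_mul]
      rw [mul_comm r, ENNReal.ofReal_mul (by positivity), ENNReal.ofReal_natCast]
    rw [← hm]
    refine measure_mono (iUnion₂_subset fun k hk => hx3 k hk)

/-- The measure of the times at which two given lines are close. -/
theorem volume_close_le {p q : ℝ × ℝ} (hp : |p.2| ≤ 1) (hq : |q.2| ≤ 1) {r h t₀ : ℝ}
    (hr : 0 < r) (hh : h ≤ 1) (ht₀ : |t₀| ≤ 2) (hD : 8 * r ≤ |pos p t₀ - pos q t₀|)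
    (hne : ({t : ℝ | |pos p t - pos q t| < 2 * r} ∩ Icc (-h) h).Nonempty) :
    |pos p t₀ - pos q t₀| ≤ 8 ∧
      volume ({t : ℝ | |pos p t - pos q t| < 2 * r} ∩ Icc (-h) h) ≤
        ENNReal.ofReal (16 * r / |pos p t₀ - pos q t₀|) := by
  set D : ℝ := |pos p t₀ - pos q t₀| with hDdef
  obtain ⟨t₁, ht₁, ht₁'⟩ := hne
  have ht₁2 : |t₁| ≤ 1 := (abs_le.mpr ⟨ht₁'.1, ht₁'.2⟩).trans hh
  have ht₁3 : |pos p t₁ - pos q t₁| < 2 * r := ht₁
  set b : ℝ := p.2 - q.2 with hb
  have hpos : ∀ t, pos p t - pos q t = (p.1 - q.1) + b * t := by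
    intro t
    unfold pos
    rw [hb]
    ring
  have hb2 : |b| ≤ 2 := by
    have := abs_sub p.2 q.2
    linarith
  have h1 : D ≤ |pos p t₁ - pos q t₁| + |b| * |t₀ - t₁| := by
    rw [hDdef, ← abs_mul]
    refine le_trans (le_of_eq ?_) (abs_add_le _ _)
    congr 1
    rw [hpos, hpos]
    ring
  have h2 : |t₀ - t₁| ≤ 3 := by
    have := abs_sub t₀ t₁
    linarith
  have h3 : |b| * |t₀ - t₁| ≤ |b| * 3 := mul_le_mul_of_nonneg_left h2 (abs_nonneg _)
  have hDpos : 0 < D := by linarith
  have h4 : D / 4 < |b| := by linarith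
  refine ⟨by linarith, ?_⟩
  have hbpos : 0 < |b| := by linarith
  have hb0 : b ≠ 0 := abs_pos.mp hbpos
  have hsub : ({t : ℝ | |pos p t - pos q t| < 2 * r} ∩ Icc (-h) h) ⊆
      ball (-(p.1 - q.1) / b) (8 * r / D) := by
    rintro t ⟨ht, -⟩
    have ht' : |pos p t - pos q t| < 2 * r := ht
    rw [mem_ball, Real.dist_eq]
    have h5 : pos p t - pos q t = b * (t - -(p.1 - q.1) / b) := by
      rw [hpos]
      field_simp
      ring
    rw [h5, abs_mul] at ht'
    rw [lt_div_iff₀ hDpos]
    have h6 : |t - -(p.1 - q.1) / b| * (D / 4) ≤ |t - -(p.1 - q.1) / b| * |b| :=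
      mul_le_mul_of_nonneg_left h4.le (abs_nonneg _)
    nlinarith
  refine (measure_mono hsub).trans (le_of_eq ?_)
  rw [Real.volume_ball]
  congr 1
  ring

end Pool.Agent.helper64.TD
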