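import Mathlib
import Pool.Agent.helper64.TD.Planar

/-!
Tube doubling for product families: the upper bound.
-/

set_option autoImplicit false

open MeasureTheory Metric Set
open scoped ENNReal

namespace Pool.Agent.helper64.TD

open Pool.Agent.helper23.TubeDouble

/-- The logarithmic factor. -/
noncomputable def KK (R : ℝ) : ℝ := 2 + 8 * (1 + Real.log (8 / R))

theorem KK_pos {R : ℝ} (hR : 0 < R) (hR8 : R ≤ 8) : 0 < KK R := by
  unfold KK
  have h1 : 0 ≤ Real.log (8 / R) := Real.log_nonneg (by rw [le_div_iff₀ hR]; linarith)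
  linarith

theorem sum_harmonic (Z : ℕ) (c : ℝ) (hc : 0 ≤ c) :
    ∑ y ∈ Finset.Icc 1 Z ×ˢ (Finset.univ : Finset Bool), ENNReal.ofReal (c / (y.1 : ℝ)) =
      ENNReal.ofReal (2 * c * (harmonic Z : ℝ)) := by
  rw [Finset.sum_product, harmonic_eq_sum_Icc]
  push_cast
  rw [Finset.mul_sum, ENNReal.ofReal_sum_of_nonneg (fun i _ => by positivity)]
  refine Finset.sum_congr rfl fun j _ => ?_
  rw [Fintype.sum_bool, ← two_mul, mul_assoc, ENNReal.ofReal_mul (by norm_num), div_eq_mul_inv]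
  simp

theorem sum_close_le {P : Finset (ℝ × ℝ)} (hP : ∀ p ∈ P, |p.2| ≤ 1) {r R h t₀ : ℝ}
    (hr : 0 < r) (hrR : 4 * r ≤ R) (hR8 : R ≤ 8) (hh : h ≤ 1) (ht₀ : |t₀| ≤ 2)
    (hsep : Sep R t₀ P) {p : ℝ × ℝ} (hp : p ∈ P) :
    ∑ q ∈ P, volume ({t : ℝ | |pos p t - pos q t| < 2 * r} ∩ Icc (-h) h) ≤
      ENNReal.ofReal (KK R) := by
  classical
  have hR : 0 < R := by linarith
  have h2R : 0 < 2 * R := by linarith
  set w : ℝ × ℝ → ℝ≥0∞ := fun q => volume ({t : ℝ | |pos p t - pos q t| < 2 * r} ∩ Icc (-h) h)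
    with hw
  set Q := P.filter
    (fun q => q ≠ p ∧ ({t : ℝ | |pos p t - pos q t| < 2 * r} ∩ Icc (-h) h).Nonempty) with hQ
  have hwp : w p ≤ ENNReal.ofReal 2 := by
    refine (measure_mono inter_subset_right).trans ?_
    rw [Real.volume_Icc]
    exact ENNReal.ofReal_le_ofReal (by linarith)
  have h1 : ∑ q ∈ P, w q ≤ w p + ∑ q ∈ Q, w q := by
    rw [← Finset.add_sum_erase P w hp]
    refine add_le_add le_rfl (le_of_eq ?_)
    symm
    refine Finset.sum_subset ?_ ?_
    · intro q hq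
      rw [hQ, Finset.mem_filter] at hq
      exact Finset.mem_erase.mpr ⟨hq.2.1, hq.1⟩
    · intro q hq hq2
      rw [Finset.mem_erase] at hq
      rw [hQ, Finset.mem_filter] at hq2
      have h3 : ¬ ({t : ℝ | |pos p t - pos q t| < 2 * r} ∩ Icc (-h) h).Nonempty :=
        fun h4 => hq2 ⟨hq.2, hq.1, h4⟩
      rw [Set.not_nonempty_iff_eq_empty] at h3
      rw [hw]
      simp only [h3, measure_empty]
  set z : ℝ × ℝ → ℤ := fun q => ⌊(pos q t₀ - pos p t₀) / (2 * R)⌋ with hz
  set g : ℝ × ℝ → ℕ × Bool := fun q => ((z q).natAbs, decide (0 < z q)) with hg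
  set Z : ℕ := ⌊8 / R⌋₊ with hZ
  have hz1 : ∀ q, 2 * R * (z q : ℝ) ≤ pos q t₀ - pos p t₀ := by
    intro q
    have := Int.floor_le ((pos q t₀ - pos p t₀) / (2 * R))
    rw [le_div_iff₀ h2R] at this
    linarith
  have hz2 : ∀ q, pos q t₀ - pos p t₀ < 2 * R * ((z q : ℝ) + 1) := by
    intro q
    have := Int.lt_floor_add_one ((pos q t₀ - pos p t₀) / (2 * R))
    rw [div_lt_iff₀ h2R] at this
    linarith
  have hQb : ∀ q ∈ Q, 1 ≤ (z q).natAbs ∧ (z q).natAbs ≤ Z ∧
      w q ≤ ENNReal.ofReal (4 / ((z q).natAbs : ℝ)) := by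
    intro q hq
    rw [hQ, Finset.mem_filter] at hq
    obtain ⟨hqP, hqp, hne⟩ := hq
    have hD := hsep p hp q hqP (Ne.symm hqp)
    have a1 := hz1 q
    have a2 := hz2 q
    obtain ⟨b1, b2⟩ := volume_close_le (hP p hp) (hP q hqP) hr hh ht₀ (by linarith) hne
    have hn1 : 1 ≤ (z q).natAbs := by
      rw [Nat.one_le_iff_ne_zero, Int.natAbs_ne_zero]
      intro h0
      rw [h0] at a1 a2
      have : |pos p t₀ - pos q t₀| < 2 * R := by
        rw [abs_sub_comm, abs_of_nonneg (by simpa using a1)]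
        simpa using a2
      linarith
    have hDn : R * ((z q).natAbs : ℝ) ≤ |pos p t₀ - pos q t₀| := by
      rcases le_or_gt 0 (z q) with h0 | h0
      · have e : ((z q).natAbs : ℝ) = (z q : ℝ) := by
          rw [Nat.cast_natAbs, abs_of_nonneg h0]
        rw [e, abs_sub_comm]
        have h5 : (0 : ℝ) ≤ (z q : ℝ) := by exact_mod_cast h0
        have h6 := le_abs_self (pos q t₀ - pos p t₀)
        nlinarith [mul_nonneg hR.le h5]
      · have e : ((z q).natAbs : ℝ) = -(z q : ℝ) := by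
          rw [Nat.cast_natAbs, abs_of_nonpos h0.le, Int.cast_neg]
        rw [e]
        have h6 := neg_abs_le (pos q t₀ - pos p t₀)
        rw [abs_sub_comm] at h6
        nlinarith
    have hnpos : (0 : ℝ) < ((z q).natAbs : ℝ) := by exact_mod_cast hn1
    refine ⟨hn1, ?_, ?_⟩
    · refine Nat.le_floor ?_
      rw [le_div_iff₀ hR]
      linarith
    · refine b2.trans (ENNReal.ofReal_le_ofReal ?_)
      have hDpos : 0 < |pos p t₀ - pos q t₀| := by linarith
      rw [div_le_div_iff₀ hDpos hnpos]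
      nlinarith [mul_le_mul_of_nonneg_right hrR hnpos.le]
  have hinj : Set.InjOn g (Q : Set (ℝ × ℝ)) := by
    intro q hq q' hq' he
    have hq1 : q ∈ P := (Finset.mem_filter.mp (Finset.mem_coe.mp hq)).1
    have hq1' : q' ∈ P := (Finset.mem_filter.mp (Finset.mem_coe.mp hq')).1
    have he1 : (z q).natAbs = (z q').natAbs := congrArg Prod.fst he
    have he2 : decide (0 < z q) = decide (0 < z q') := congrArg Prod.snd he
    have he3 : z q = z q' := by
      rw [decide_eq_decide] at he2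
      omega
    by_contra hne
    have hD := hsep q hq1 q' hq1' hne
    have a1 := hz1 q
    have a2 := hz2 q
    have b1 := hz1 q'
    have b2 := hz2 q'
    rw [he3] at a1 a2
    have : |pos q t₀ - pos q' t₀| < 2 * R := by
      rw [abs_lt]
      constructor <;> linarith
    linarith
  have h2 : ∑ q ∈ Q, w q ≤ ENNReal.ofReal (2 * 4 * (harmonic Z : ℝ)) := by
    calc ∑ q ∈ Q, w q ≤ ∑ q ∈ Q, ENNReal.ofReal (4 / ((g q).1 : ℝ)) :=
          Finset.sum_le_sum fun q hq => (hQb q hq).2.2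
      _ = ∑ y ∈ Q.image g, ENNReal.ofReal (4 / (y.1 : ℝ)) := by
          rw [Finset.sum_image (f := fun y : ℕ × Bool => ENNReal.ofReal (4 / (y.1 : ℝ))) hinj]
      _ ≤ ∑ y ∈ Finset.Icc 1 Z ×ˢ (Finset.univ : Finset Bool), ENNReal.ofReal (4 / (y.1 : ℝ)) := by
          refine Finset.sum_le_sum_of_subset ?_
          intro y hy
          obtain ⟨q, hq, rfl⟩ := Finset.mem_image.mp hy
          rw [Finset.mem_product, Finset.mem_Icc]
          exact ⟨⟨(hQb q hq).1, (hQb q hq).2.1⟩, Finset.mem_univ _⟩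
      _ = _ := sum_harmonic Z 4 (by norm_num)
  have h3 : (harmonic Z : ℝ) ≤ 1 + Real.log (8 / R) := by
    refine (harmonic_le_one_add_log Z).trans ?_
    have h8 : 1 ≤ 8 / R := by
      rw [le_div_iff₀ hR]
      linarith
    have hZ1 : 1 ≤ Z := Nat.le_floor (by exact_mod_cast h8)
    have hZ2 : (Z : ℝ) ≤ 8 / R := Nat.floor_le (by positivity)
    have hZ3 : (0 : ℝ) < Z := by exact_mod_cast hZ1
    have := Real.log_le_log hZ3 hZ2
    linarith
  refine (h1.trans (add_le_add hwp h2)).trans ?_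
  have hh0 : 0 ≤ (harmonic Z : ℝ) := by
    have : (0 : ℚ) ≤ harmonic Z := by
      unfold harmonic
      positivity
    exact_mod_cast this
  rw [← ENNReal.ofReal_add (by norm_num) (by positivity)]
  refine ENNReal.ofReal_le_ofReal ?_
  unfold KK
  linarith

theorem lintegral_MM_le {P : Finset (ℝ × ℝ)} (hP : ∀ p ∈ P, |p.2| ≤ 1) {r R h t₀ : ℝ}
    (hr : 0 < r) (hrR : 4 * r ≤ R) (hR8 : R ≤ 8) (hh : h ≤ 1) (ht₀ : |t₀| ≤ 2)
    (hsep : Sep R t₀ P) :
    ∫⁻ t in Icc (-h) h, (MM P r t : ℝ≥0∞) ≤ (P.card : ℝ≥0∞) * ENNReal.ofReal (KK R) := by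
  classical
  have hms : ∀ q : (ℝ × ℝ) × (ℝ × ℝ), MeasurableSet {t : ℝ | |pos q.1 t - pos q.2 t| < 2 * r} := by
    intro q
    refine (isOpen_lt ?_ continuous_const).measurableSet
    unfold pos
    fun_prop
  have h1 : ∀ t, (MM P r t : ℝ≥0∞) = ∑ q ∈ P ×ˢ P,
      ({t : ℝ | |pos q.1 t - pos q.2 t| < 2 * r}).indicator (fun _ => (1 : ℝ≥0∞)) t := by
    intro t
    unfold MM
    rw [Finset.card_filter]
    push_cast
    refine Finset.sum_congr rfl fun q _ => ?_
    simp only [Set.indicator_apply, mem_ofPred_eq]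
  simp only [h1]
  rw [lintegral_finsetSum _ (fun q _ => measurable_const.indicator (hms q)), Finset.sum_product]
  calc ∑ p ∈ P, ∑ q ∈ P, ∫⁻ t in Icc (-h) h,
        ({t : ℝ | |pos p t - pos q t| < 2 * r}).indicator (fun _ => (1 : ℝ≥0∞)) t
      = ∑ p ∈ P, ∑ q ∈ P, volume ({t : ℝ | |pos p t - pos q t| < 2 * r} ∩ Icc (-h) h) := by
        refine Finset.sum_congr rfl fun p _ => Finset.sum_congr rfl fun q _ => ?_
        rw [lintegral_indicator (hms (p, q)), setLIntegral_const, one_mul,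
          Measure.restrict_apply (hms (p, q))]
    _ ≤ ∑ p ∈ P, ENNReal.ofReal (KK R) :=
        Finset.sum_le_sum fun p hp => sum_close_le hP hr hrR hR8 hh ht₀ hsep hp
    _ = _ := by rw [Finset.sum_const, nsmul_eq_mul]

/-- The planar estimate: outside a small set of times, the slices of the strips of half-width `r`
are comparable with the slice at time `t₀` of the strips of half-width `R`. -/
theorem exists_bad (F : Finset (ℝ × ℝ)) (hF : ∀ p ∈ F, |p.2| ≤ 1) {r R h t₀ lam : ℝ}
    (hr : 0 < r) (hrR : 4 * r ≤ R) (hR8 : R ≤ 8) (hh : h ≤ 1) (ht₀ : |t₀| ≤ 2) (hlam : 0 < lam) :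
    ∃ B : Set ℝ, volume B ≤ ENNReal.ofReal (1 / lam) ∧ ∀ t ∈ Icc (-h) h, t ∉ B →
      volume (sl F R t₀) ≤ ENNReal.ofReal (6 * (R / r) * lam * KK R) * volume (sl F r t) := by
  have hR : 0 < R := by linarith
  have hK := KK_pos hR hR8
  obtain ⟨P, hPF, hsep, hvol⟩ := exists_separated F hR t₀
  rcases P.eq_empty_or_nonempty with rfl | hne
  · refine ⟨∅, by simp, fun t _ _ => ?_⟩
    refine hvol.trans ?_
    simp
  have hP : ∀ p ∈ P, |p.2| ≤ 1 := fun p hp => hF p (hPF hp)
  have hcard : (0 : ℝ) < P.card := by exact_mod_cast hne.card_pos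
  have h1 := lintegral_MM_le hP hr hrR hR8 hh ht₀ hsep
  set θ : ℝ := lam * (P.card * KK R) with hθ
  have hθ0 : 0 < θ := by positivity
  have hmeas : Measurable (fun t => (MM P r t : ℝ≥0∞)) := by
    classical
    have e : (fun t => (MM P r t : ℝ≥0∞)) = fun t => ∑ q ∈ P ×ˢ P,
        ({t : ℝ | |pos q.1 t - pos q.2 t| < 2 * r}).indicator (fun _ => (1 : ℝ≥0∞)) t := by
      funext t
      unfold MM
      rw [Finset.card_filter]
      push_cast
      refine Finset.sum_congr rfl fun q _ => ?_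
      simp only [Set.indicator_apply, mem_ofPred_eq]
    rw [e]
    refine Finset.measurable_sum _ fun q _ => measurable_const.indicator ?_
    refine (isOpen_lt ?_ continuous_const).measurableSet
    unfold pos
    fun_prop
  refine ⟨{t | ENNReal.ofReal θ ≤ (MM P r t : ℝ≥0∞)} ∩ Icc (-h) h, ?_, ?_⟩
  · have h2 := mul_meas_ge_le_lintegral (μ := volume.restrict (Icc (-h) h)) hmeas
      (ENNReal.ofReal θ)
    rw [Measure.restrict_apply (measurableSet_le measurable_const hmeas)] at h2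
    have h3 := h2.trans h1
    have h4 : (P.card : ℝ≥0∞) * ENNReal.ofReal (KK R) =
        ENNReal.ofReal θ * ENNReal.ofReal (1 / lam) := by
      rw [← ENNReal.ofReal_natCast, ← ENNReal.ofReal_mul (by positivity),
        ← ENNReal.ofReal_mul (by positivity)]
      congr 1
      rw [hθ]
      field_simp
    rw [h4] at h3
    exact (ENNReal.mul_le_mul_iff_right (by positivity) ENNReal.ofReal_ne_top).mp h3
  · intro t ht htB
    have h2 : (MM P r t : ℝ≥0∞) < ENNReal.ofReal θ := by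
      by_contra hcon
      exact htB ⟨not_lt.mp hcon, ht⟩
    have h3 : (MM P r t : ℝ) < θ := by
      rw [← ENNReal.ofReal_natCast] at h2
      exact (ENNReal.ofReal_lt_ofReal_iff hθ0).mp h2
    obtain ⟨K, hK1, hK2⟩ := exists_cells P hr t
    have h4 : (P.card : ℝ) ^ 2 ≤ K * (MM P r t : ℝ) := by exact_mod_cast hK1
    have h5 : (P.card : ℝ) ≤ K * (lam * KK R) := by
      have h6 : (P.card : ℝ) ^ 2 ≤ K * θ :=
        h4.trans (mul_le_mul_of_nonneg_left h3.le (Nat.cast_nonneg _))
      have h7 : (P.card : ℝ) * P.card ≤ P.card * (K * (lam * KK R)) := by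
        calc (P.card : ℝ) * P.card = (P.card : ℝ) ^ 2 := by ring
          _ ≤ K * θ := h6
          _ = _ := by
            rw [hθ]
            ring
      exact le_of_mul_le_mul_left h7 hcard
    calc volume (sl F R t₀) ≤ ENNReal.ofReal (6 * R) * (P.card : ℝ≥0∞) := hvol
      _ ≤ ENNReal.ofReal (6 * R) * ENNReal.ofReal (K * (lam * KK R)) := by
          rw [← ENNReal.ofReal_natCast]
          gcongr
      _ = ENNReal.ofReal (6 * (R / r) * lam * KK R) * ENNReal.ofReal (r * K) := by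
          rw [← ENNReal.ofReal_mul (by positivity), ← ENNReal.ofReal_mul (by positivity)]
          congr 1
          field_simp
      _ ≤ ENNReal.ofReal (6 * (R / r) * lam * KK R) * volume (sl F r t) := by
          gcongr
          exact hK2.trans (measure_mono (sl_mono hPF r t))

/-- Comparison of the product slices. -/
theorem prod_slice_le {m : ℕ} (hm : 1 ≤ m) (F : Fin m → Finset (ℝ × ℝ))
    (hF : ∀ i, ∀ p ∈ F i, |p.2| ≤ 1) {r R h t₀ : ℝ}
    (hr : 0 < r) (hrR : 4 * r ≤ R) (hR8 : R ≤ 8) (hh0 : 0 < h) (hh : h ≤ 1) (ht₀ : |t₀| ≤ 2) :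
    ∏ i, volume (sl (F i) R t₀) ≤
      ENNReal.ofReal (1 / h * (6 * (R / r) * (m / h) * KK R) ^ m) * volume (bx F h r) := by
  have hR : 0 < R := by linarith
  have hK := KK_pos hR hR8
  have hm0 : (0 : ℝ) < m := by exact_mod_cast hm
  set lam : ℝ := m / h with hlam
  have hlam0 : 0 < lam := by positivity
  have hb := fun i => exists_bad (F i) (hF i) (h := h) hr hrR hR8 hh ht₀ hlam0
  choose B hB1 hB2 using hb
  set Γ : ℝ≥0∞ := ENNReal.ofReal (6 * (R / r) * lam * KK R) with hΓ
  set Gd : Set ℝ := Icc (-h) h \ ⋃ i, B i with hGd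
  set G : Set ℝ := {t | ∀ i, volume (sl (F i) R t₀) ≤ Γ * volume (sl (F i) r t)} ∩ Icc (-h) h
    with hG
  have hGm : MeasurableSet G := by
    refine MeasurableSet.inter ?_ measurableSet_Icc
    have e : {t | ∀ i, volume (sl (F i) R t₀) ≤ Γ * volume (sl (F i) r t)} =
        ⋂ i, {t | volume (sl (F i) R t₀) ≤ Γ * volume (sl (F i) r t)} := by
      ext t
      simp
    rw [e]
    refine MeasurableSet.iInter fun i => measurableSet_le measurable_const ?_
    exact (measurable_volume_sl (F i) r).const_mul _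
  have hsub : Gd ⊆ G := by
    rintro t ⟨ht1, ht2⟩
    refine ⟨fun i => hB2 i t ht1 fun h3 => ht2 (mem_iUnion.mpr ⟨i, h3⟩), ht1⟩
  have hvG : ENNReal.ofReal h ≤ volume G := by
    refine le_trans ?_ (measure_mono hsub)
    refine le_trans ?_ le_measure_sdiff
    rw [Real.volume_Icc]
    have h1 : volume (⋃ i, B i) ≤ ENNReal.ofReal h := by
      refine (measure_iUnion_le _).trans ?_
      rw [tsum_fintype]
      refine (Finset.sum_le_sum fun i _ => hB1 i).trans ?_
      rw [Finset.sum_const, Finset.card_univ, Fintype.card_fin, nsmul_eq_mul,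
        ← ENNReal.ofReal_natCast, ← ENNReal.ofReal_mul (by positivity)]
      refine ENNReal.ofReal_le_ofReal (le_of_eq ?_)
      rw [hlam]
      field_simp
    refine le_trans ?_ (tsub_le_tsub_left h1 _)
    rw [← ENNReal.ofReal_sub _ hh0.le]
    exact ENNReal.ofReal_le_ofReal (by linarith)
  have h2 : (∏ i, volume (sl (F i) R t₀)) * volume G ≤ Γ ^ m * volume (bx F h r) := by
    rw [volume_bx, ← lintegral_const_mul' _ _ (ENNReal.pow_ne_top ENNReal.ofReal_ne_top)]
    calc (∏ i, volume (sl (F i) R t₀)) * volume G =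
          ∫⁻ _ in G, (∏ i, volume (sl (F i) R t₀)) := (setLIntegral_const _ _).symm
      _ ≤ ∫⁻ t in G, Γ ^ m * ∏ i, volume (sl (F i) r t) := by
          refine setLIntegral_mono' hGm fun t ht => ?_
          calc ∏ i, volume (sl (F i) R t₀) ≤ ∏ i, Γ * volume (sl (F i) r t) :=
                Finset.prod_le_prod' fun i _ => ht.1 i
            _ = _ := by
                rw [Finset.prod_mul_distrib, Finset.prod_const, Finset.card_univ, Fintype.card_fin]
      _ ≤ ∫⁻ t in Icc (-h) h, Γ ^ m * ∏ i, volume (sl (F i) r t) :=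
          lintegral_mono_set inter_subset_right
  have h3 : (∏ i, volume (sl (F i) R t₀)) * ENNReal.ofReal h ≤ Γ ^ m * volume (bx F h r) :=
    (mul_le_mul_right hvG _).trans h2
  have h4 : ENNReal.ofReal (1 / h * (6 * (R / r) * (m / h) * KK R) ^ m) =
      (ENNReal.ofReal h)⁻¹ * Γ ^ m := by
    rw [ENNReal.ofReal_mul (by positivity), ENNReal.ofReal_pow (by positivity), one_div,
      ENNReal.ofReal_inv_of_pos hh0]
  rw [h4, mul_assoc, mul_comm (ENNReal.ofReal h)⁻¹, ← div_eq_mul_inv]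
  rw [ENNReal.le_div_iff_mul_le (Or.inl (by positivity)) (Or.inl ENNReal.ofReal_ne_top)]
  exact h3

theorem volume_doubles_le {m : ℕ} (hm : 1 ≤ m) (F : Fin m → Finset (ℝ × ℝ))
    (hF : ∀ i, ∀ p ∈ F i, |p.2| ≤ 1) {δ : ℝ} (hδ : 0 < δ) (hδ2 : δ < 1 / 2) :
    volume (doubles (m + 1) δ (prodFamily F)) ≤
      ENNReal.ofReal (8 * Real.sqrt (m + 1) * (1488 * m * (m + 1) * Real.log (1 / δ)) ^ m) *
        volume (tubes (m + 1) δ (prodFamily F)) := by
  have hm0 : (0 : ℝ) < m := by exact_mod_cast hm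
  have hm1 : (1 : ℝ) ≤ m := by exact_mod_cast hm
  set s : ℝ := Real.sqrt (m + 1) with hs
  have hs0 : 0 < s := Real.sqrt_pos.mpr (by positivity)
  have hssq : s ^ 2 = m + 1 := Real.sq_sqrt (by positivity)
  have hs1 : 1 ≤ s := by nlinarith
  set h : ℝ := 1 / (2 * s) with hh
  have hh0 : 0 < h := by positivity
  have hh1 : h ≤ 1 := by
    rw [hh, div_le_one (by positivity)]
    linarith
  set r : ℝ := δ / s with hr
  have hr0 : 0 < r := by positivity
  have hrδ : r ≤ δ := div_le_self hδ.le hs1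
  have h1 : bx F h r ⊆ tubes (m + 1) δ (prodFamily F) := by
    rw [tubes_eq_seg]
    refine bx_subset_seg F hδ fun f hf => ?_
    have h2 : ‖vel f‖ ≤ s := by
      have h3 := norm_vel_sq f
      have h4 : ∑ i, (f i).2 ^ 2 ≤ m := by
        calc ∑ i, (f i).2 ^ 2 ≤ ∑ _i : Fin m, (1 : ℝ) := by
              refine Finset.sum_le_sum fun i _ => ?_
              exact (sq_le_one_iff_abs_le_one _).mpr (hF i _ (hf i))
          _ = m := by simp
      refine le_of_sq_le_sq ?_ hs0.le
      rw [h3, hssq]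
      linarith
    rw [hh, div_mul_eq_mul_div, one_mul, div_le_iff₀ (by positivity)]
    linarith
  have h2 : doubles (m + 1) δ (prodFamily F) ⊆ bx F 2 (4 * δ) := by
    rw [doubles_eq_seg]
    refine (seg_subset_bx F hF 1 (2 * δ)).trans ?_
    rintro x ⟨hx0, hx⟩
    refine ⟨by linarith, fun i => ?_⟩
    have := hx i
    rw [show 2 * (2 * δ) = 4 * δ by ring] at this
    exact this
  have hlogδ : Real.log 2 ≤ Real.log (1 / δ) := by
    refine Real.log_le_log (by norm_num) ?_
    rw [le_div_iff₀ hδ]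
    linarith
  have hlog2 := Real.log_two_gt_d9
  have hKK : KK (4 * δ) ≤ 31 * Real.log (1 / δ) := by
    unfold KK
    have e : (8 / (4 * δ) : ℝ) = 2 * (1 / δ) := by
      field_simp
      norm_num
    rw [e, Real.log_mul (by norm_num) (by positivity)]
    linarith
  have hKK0 : 0 < KK (4 * δ) := KK_pos (by positivity) (by linarith)
  have h3 : ∀ t ∈ Icc (-2 : ℝ) 2, ∏ i, volume (sl (F i) (4 * δ) t) ≤
      ENNReal.ofReal (2 * s * (1488 * m * (m + 1) * Real.log (1 / δ)) ^ m) *
        volume (tubes (m + 1) δ (prodFamily F)) := by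
    intro t ht
    refine (prod_slice_le hm F hF (r := r) (R := 4 * δ) (h := h) hr0 (by linarith)
      (by linarith) hh0 hh1 (abs_le.mpr ⟨ht.1, ht.2⟩)).trans ?_
    refine mul_le_mul' (ENNReal.ofReal_le_ofReal ?_) (measure_mono h1)
    have e1 : 1 / h = 2 * s := by
      rw [hh]
      field_simp
    have e2 : 6 * (4 * δ / r) * (m / h) * KK (4 * δ) = 48 * m * (m + 1) * KK (4 * δ) := by
      have e3 : 4 * δ / r = 4 * s := by
        rw [hr]
        field_simp
      rw [e3, div_eq_mul_one_div (m : ℝ) h, e1, ← hssq]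
      ring
    rw [e1, e2]
    have e4 : 48 * (m : ℝ) * (m + 1) * KK (4 * δ) ≤ 1488 * m * (m + 1) * Real.log (1 / δ) := by
      calc 48 * (m : ℝ) * (m + 1) * KK (4 * δ) ≤
            48 * (m : ℝ) * (m + 1) * (31 * Real.log (1 / δ)) :=
            mul_le_mul_of_nonneg_left hKK (by positivity)
        _ = _ := by ring
    exact mul_le_mul_of_nonneg_left (pow_le_pow_left₀ (by positivity) e4 m) (by positivity)
  calc volume (doubles (m + 1) δ (prodFamily F)) ≤ volume (bx F 2 (4 * δ)) := measure_mono h2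
    _ = ∫⁻ t in Icc (-2 : ℝ) 2, ∏ i, volume (sl (F i) (4 * δ) t) := volume_bx F 2 (4 * δ)
    _ ≤ ∫⁻ _ in Icc (-2 : ℝ) 2,
          ENNReal.ofReal (2 * s * (1488 * m * (m + 1) * Real.log (1 / δ)) ^ m) *
            volume (tubes (m + 1) δ (prodFamily F)) :=
        setLIntegral_mono' measurableSet_Icc h3
    _ = _ := by
        rw [setLIntegral_const, Real.volume_Icc, mul_right_comm, ← ENNReal.ofReal_mul]
        · congr 2
          ring
        · have : 0 ≤ Real.log (1 / δ) := by linarith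
          positivity

end Pool.Agent.helper64.TD
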